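import Mathlib

/-!
# Definitions: omega-modifications and Sokolov spaces
-/

set_option autoImplicit false

open Set Topology Filter TopologicalSpace

universe u

namespace Pool.Agent.KS6_94.SK

/-- A space is scattered if each nonempty subset `S` has a point that is isolated in `S`. -/
def Scattered (K : Type u) [TopologicalSpace K] : Prop :=
  ∀ S : Set K, S.Nonempty → ∃ x ∈ S, ∃ U : Set K, IsOpen U ∧ U ∩ S = {x}

/-- The omega-modification of `K`: the same set, with the topology generated by the `G_δ`-sets. -/
def OmegaMod (K : Type u) : Type u := K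

instance (K : Type u) [TopologicalSpace K] : TopologicalSpace (OmegaMod K) :=
  generateFrom {s : Set K | IsGδ s}

/-- `Y` has a countable network. -/
def CountableNetwork (Y : Type u) [TopologicalSpace Y] : Prop :=
  ∃ 𝒩 : Set (Set Y), 𝒩.Countable ∧ ∀ U : Set Y, IsOpen U → ∀ y ∈ U, ∃ N ∈ 𝒩, y ∈ N ∧ N ⊆ U

/-- `X` is a Sokolov space: for all closed sets `F n` of the powers `X ^ n` there is a continuous
`f : X → X` whose image has a countable network, with `f ^ n (F n) ⊆ F n` for all `n`. -/
def IsSokolov (X : Type u) [TopologicalSpace X] : Prop :=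
  ∀ F : (n : ℕ) → Set (Fin n → X), (∀ n, IsClosed (F n)) →
    ∃ f : X → X, Continuous f ∧ CountableNetwork (range f) ∧
      ∀ n, ∀ x ∈ F n, (fun i => f (x i)) ∈ F n

/-- For every countable set `S` and all closed sets `F n` of the powers `X ^ n` there is a
continuous retraction `f` of `X` onto a countable set containing `S`, with `f ^ n (F n) ⊆ F n` for
all `n`. -/
def HasCountableRetractions (X : Type u) [TopologicalSpace X] : Prop :=
  ∀ S : Set X, S.Countable → ∀ F : (n : ℕ) → Set (Fin n → X), (∀ n, IsClosed (F n)) →
    ∃ f : X → X, Continuous f ∧ (∀ x, f (f x) = f x) ∧ (range f).Countable ∧ S ⊆ range f ∧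
      ∀ n, ∀ x ∈ F n, (fun i => f (x i)) ∈ F n

/-- Every closed discrete subset is countable. -/
def CountableExtent (X : Type u) [TopologicalSpace X] : Prop :=
  ∀ D : Set X, IsClosed D → IsDiscrete D → D.Countable

/-- Čech-completeness (for Tychonoff spaces, by Frolík's characterization): there are open covers
`U n` such that every filter which contains for each `n` a member of `U n` has a cluster point. -/
def CechComplete (X : Type u) [TopologicalSpace X] : Prop :=
  ∃ U : ℕ → Set (Set X), (∀ n, (∀ V ∈ U n, IsOpen V) ∧ ⋃₀ U n = univ) ∧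
    ∀ F : Filter X, F.NeBot → (∀ n, ∃ V ∈ U n, V ∈ F) → ∃ x, ClusterPt x F

end Pool.Agent.KS6_94.SK
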