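import Pool.Agent.KS6_94.SK.Defs

/-!
# Omega-modifications of countable unions of Lindelöf scattered spaces

Let `K` be a regular Hausdorff space which is the union of countably many closed Lindelöf scattered
subspaces `A n`. Then the omega-modification `X` of `K` is Lindelöf, and for every countable set `S`
and all closed sets `F n` of the powers `X ^ n` there is a continuous retraction of `X` onto a
countable set which contains `S` and which preserves all `F n`. In particular `X` is a Sokolov space.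

Idea. On `A n` there is an injective rank `ρ n` with open initial segments. Choose for `x ∈ A n` a
clopen set `U n x ∋ x` of `X` with `ρ n ≤ ρ n x` on `U n x ∩ A n`, and for a clopen set `C` a countable
set `W n C ⊆ C ∩ A n` such that the sets `U n x`, `x ∈ W n C`, cover `C ∩ A n`. Close off to get a
countable set `P` of points and a countable algebra `B` of clopen sets. If `z ∈ A n` and `x` is the
point of least rank in `P ∩ A n` with `z ∈ U n x`, then `x` and `z` are in the same members of `B`.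
The map `z ↦ x` is the retraction.
-/

set_option autoImplicit false

open Set Topology Filter TopologicalSpace

universe u

namespace Pool.Agent.KS6_94.SK

/-! ### The rank -/

section Rank

variable {K : Type u} [TopologicalSpace K]

/-- The set of points of rank at most `α`. -/
def D (K : Type u) [TopologicalSpace K] (α : Ordinal.{u}) : Set K :=
  {x | ∃ U : Set K, IsOpen U ∧ x ∈ U ∧ ∀ y ∈ U, y ≠ x → ∃ β, ∃ _ : β < α, y ∈ D K β}
termination_by α

theorem mem_D {α : Ordinal.{u}} {x : K} :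
    x ∈ D K α ↔ ∃ U : Set K, IsOpen U ∧ x ∈ U ∧ ∀ y ∈ U, y ≠ x → ∃ β < α, y ∈ D K β := by
  rw [D]
  simp only [exists_prop, mem_ofPred_eq]

theorem exists_mem_D (h : Scattered K) (x : K) : ∃ α, x ∈ D K α := by
  by_contra hx
  obtain ⟨x, hxS, U, hU, hUS⟩ := h {x | ¬ ∃ α, x ∈ D K α} ⟨x, hx⟩
  have h1 : ∀ y : U, y.1 ≠ x → ∃ α, y.1 ∈ D K α := by
    intro y hy
    by_contra hcon
    have : y.1 ∈ U ∩ {x | ¬ ∃ α, x ∈ D K α} := ⟨y.2, hcon⟩
    rw [hUS] at this
    exact hy this
  choose g hg using h1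
  classical
  let g' : U → Ordinal.{u} := fun y => if h : y.1 ≠ x then g y h else 0
  refine hxS ⟨Order.succ (⨆ y, g' y), ?_⟩
  rw [mem_D]
  have hxU : x ∈ U := by
    have : x ∈ U ∩ {x | ¬ ∃ α, x ∈ D K α} := by rw [hUS]; rfl
    exact this.1
  refine ⟨U, hU, hxU, fun y hy hyx => ⟨g ⟨y, hy⟩ hyx, ?_, hg ⟨y, hy⟩ hyx⟩⟩
  rw [Order.lt_succ_iff]
  have h2 : g' ⟨y, hy⟩ = g ⟨y, hy⟩ hyx := by simp [g', hyx]
  rw [← h2]
  exact le_ciSup (Ordinal.bddAbove_of_small) _

theorem exists_rank (h : Scattered K) :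
    ∃ ρ : K → Ordinal.{u}, Function.Injective ρ ∧ ∀ x, IsOpen {y | ρ y ≤ ρ x} := by
  classical
  let rk : K → Ordinal.{u} := fun x => sInf {α | x ∈ D K α}
  have hrk : ∀ x, x ∈ D K (rk x) := fun x => csInf_mem (exists_mem_D h x)
  have hrk' : ∀ x, ∃ U : Set K, IsOpen U ∧ x ∈ U ∧ ∀ y ∈ U, y ≠ x → rk y < rk x := by
    intro x
    obtain ⟨U, hU, hx, hy⟩ := mem_D.1 (hrk x)
    refine ⟨U, hU, hx, fun y hyU hyx => ?_⟩
    obtain ⟨β, hβ, hyβ⟩ := hy y hyU hyx
    exact lt_of_le_of_lt (csInf_le' hyβ) hβ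
  let e : K ↪ Ordinal.{u} × K := ⟨fun x => (rk x, x), fun x y hxy => (Prod.mk.inj hxy).2⟩
  let r : K → K → Prop := e ⁻¹'o (Prod.Lex (· < ·) WellOrderingRel)
  have : IsWellOrder K r := (RelEmbedding.preimage e _).isWellOrder
  refine ⟨Ordinal.typein r, Ordinal.typein_injective r, fun x => ?_⟩
  rw [isOpen_iff_mem_nhds]
  intro y hy
  obtain ⟨U, hU, hyU, hlt⟩ := hrk' y
  filter_upwards [hU.mem_nhds hyU] with z hz
  by_cases hzy : z = y
  · rw [hzy]; exact hy
  · have h1 : r z y := Prod.Lex.left _ _ (hlt z hz hzy)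
    exact le_trans (le_of_lt ((Ordinal.typein_lt_typein r).2 h1)) hy

end Rank

/-! ### Closing off -/

theorem exists_closed {T : Type u} (S₀ : Set T) (h₀ : S₀.Countable)
    (G : (n : ℕ) → (Fin n → T) → Set T) (hG : ∀ n a, (G n a).Countable) :
    ∃ S : Set T, S₀ ⊆ S ∧ S.Countable ∧ ∀ n a, (∀ i, a i ∈ S) → G n a ⊆ S := by
  let Q : ℕ → Set T := fun m =>
    Nat.rec S₀ (fun _ S => S ∪ ⋃ n, ⋃ a ∈ Set.pi univ (fun _ : Fin n => S), G n a) m
  have hQ : ∀ m, Q (m + 1) = Q m ∪ ⋃ n, ⋃ a ∈ Set.pi univ (fun _ : Fin n => Q m), G n a :=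
    fun m => rfl
  have hmono : Monotone Q := monotone_nat_of_le_succ fun m => by
    rw [hQ]; exact subset_union_left
  have hcount : ∀ m, (Q m).Countable := by
    intro m
    induction m with
    | zero => exact h₀
    | succ m ih =>
      rw [hQ]
      refine ih.union (countable_iUnion fun n => ?_)
      exact (Set.countable_univ_pi fun _ => ih).biUnion fun a _ => hG n a
  refine ⟨⋃ m, Q m, subset_iUnion Q 0, countable_iUnion hcount, ?_⟩
  intro n a ha
  have h1 : ∀ i, ∃ m, a i ∈ Q m := fun i => mem_iUnion.1 (ha i)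
  choose m hm using h1
  obtain ⟨M, hM⟩ : ∃ M, ∀ i, m i ≤ M := ⟨Finset.univ.sup m, fun i => Finset.le_sup (Finset.mem_univ i)⟩
  refine Subset.trans ?_ (subset_iUnion Q (M + 1))
  rw [hQ]
  refine Subset.trans ?_ subset_union_right
  refine Subset.trans ?_ (subset_iUnion _ n)
  exact subset_biUnion_of_mem (u := fun a => G n a) (mem_univ_pi.2 fun i => hmono (hM i) (hm i))

/-! ### The omega-modification -/

section Mod

variable {K : Type u} [TopologicalSpace K]

theorem exists_isGδ {U : Set (OmegaMod K)} (hU : IsOpen U)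
    {x : OmegaMod K} (hx : x ∈ U) : ∃ G : Set K, IsGδ G ∧ x ∈ G ∧ G ⊆ U := by
  induction hU with
  | basic s hs => exact ⟨s, hs, hx, Subset.rfl⟩
  | univ => exact ⟨univ, IsGδ.univ, mem_univ _, subset_univ _⟩
  | inter s t _ _ ihs iht =>
    obtain ⟨G, hG, hxG, hGs⟩ := ihs hx.1
    obtain ⟨G', hG', hxG', hGt⟩ := iht hx.2
    exact ⟨G ∩ G', hG.inter hG', ⟨hxG, hxG'⟩, inter_subset_inter hGs hGt⟩
  | sUnion S _ ih =>
    obtain ⟨s, hs, hxs⟩ := hx
    obtain ⟨G, hG, hxG, hGs⟩ := ih s hs hxs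
    exact ⟨G, hG, hxG, hGs.trans (subset_sUnion_of_mem hs)⟩

theorem isOpen_of_isGδ {G : Set K} (hG : IsGδ G) : @IsOpen (OmegaMod K) _ G :=
  isOpen_generateFrom_of_mem hG

theorem isOpen_of_isOpen {G : Set K} (hG : IsOpen G) : @IsOpen (OmegaMod K) _ G :=
  isOpen_of_isGδ hG.isGδ

theorem isClosed_of_isClosed {G : Set K} (hG : IsClosed G) : @IsClosed (OmegaMod K) _ G := by
  have h1 : IsOpen Gᶜ := hG.isOpen_compl
  have h : @IsOpen (OmegaMod K) _ (Gᶜ : Set K) := isOpen_of_isOpen h1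
  exact @IsClosed.mk (OmegaMod K) _ G h

/-- The omega-modification is a `P`-space. -/
theorem isOpen_biInter {ι : Type*} {I : Set ι} (hI : I.Countable) {U : ι → Set (OmegaMod K)}
    (hU : ∀ i ∈ I, IsOpen (U i)) : IsOpen (⋂ i ∈ I, U i) := by
  rw [isOpen_iff_mem_nhds]
  intro x hx
  have h1 : ∀ i : I, ∃ G : Set K, IsGδ G ∧ x ∈ G ∧ G ⊆ U i := fun i =>
    exists_isGδ (hU i i.2) (mem_iInter₂.1 hx i i.2)
  choose G hG hxG hGU using h1
  have : Countable I := hI.to_subtype
  have h2 : @IsOpen (OmegaMod K) _ (⋂ i, G i : Set K) := isOpen_of_isGδ (IsGδ.iInter hG)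
  refine mem_of_superset (h2.mem_nhds (mem_iInter.2 hxG)) ?_
  intro y hy
  exact mem_iInter₂.2 fun i hi => hGU ⟨i, hi⟩ (mem_iInter.1 hy ⟨i, hi⟩)

theorem exists_shrink [RegularSpace K] {V : Set K} (hV : IsOpen V) {x : K} (hx : x ∈ V) :
    ∃ W : Set K, IsOpen W ∧ x ∈ W ∧ closure W ⊆ V := by
  obtain ⟨t, ht, htc, htV⟩ := exists_mem_nhds_isClosed_subset (hV.mem_nhds hx)
  exact ⟨interior t, isOpen_interior, mem_interior_iff_mem_nhds.2 ht,
    (closure_minimal interior_subset htc).trans htV⟩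

/-- The omega-modification of a regular space has a base of clopen sets. -/
theorem exists_clopen [RegularSpace K] {U : Set (OmegaMod K)} (hU : IsOpen U)
    {x : OmegaMod K} (hx : x ∈ U) : ∃ C : Set (OmegaMod K), IsClopen C ∧ x ∈ C ∧ C ⊆ U := by
  obtain ⟨G, hG, hxG, hGU⟩ := exists_isGδ hU hx
  obtain ⟨g, hg, rfl⟩ := isGδ_iff_eq_iInter_nat.1 hG
  -- shrinking inside an open set
  have hs : ∀ V : Set K, ∃ W : Set K, IsOpen V → (x : K) ∈ V →
      IsOpen W ∧ (x : K) ∈ W ∧ closure W ⊆ V := by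
    intro V
    by_cases h : IsOpen V ∧ (x : K) ∈ V
    · obtain ⟨W, hW, hxW, hWV⟩ := exists_shrink h.1 h.2
      exact ⟨W, fun _ _ => ⟨hW, hxW, hWV⟩⟩
    · exact ⟨univ, fun h1 h2 => absurd ⟨h1, h2⟩ h⟩
  choose s hs using hs
  let V : ℕ → ℕ → Set K := fun j k => s^[k] (g j)
  have hV : ∀ j k, IsOpen (V j k) ∧ (x : K) ∈ V j k := by
    intro j k
    induction k with
    | zero => exact ⟨hg j, mem_iInter.1 hxG j⟩
    | succ k ih =>
      have h1 : V j (k + 1) = s (V j k) := Function.iterate_succ_apply' s k (g j)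
      rw [h1]
      exact ⟨(hs _ ih.1 ih.2).1, (hs _ ih.1 ih.2).2.1⟩
  have hcl : ∀ j k, closure (V j (k + 1)) ⊆ V j k := by
    intro j k
    have h1 : V j (k + 1) = s (V j k) := Function.iterate_succ_apply' s k (g j)
    rw [h1]
    exact (hs _ (hV j k).1 (hV j k).2).2.2
  refine ⟨(⋂ j, ⋂ k, V j k : Set K), ⟨?_, ?_⟩, ?_, ?_⟩
  · have h1 : (⋂ j, ⋂ k, V j k) = ⋂ j, ⋂ k, closure (V j (k + 1)) := by
      ext y
      simp only [mem_iInter]
      constructor
      · intro h j k
        exact subset_closure (h j (k + 1))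
      · intro h j k
        exact hcl j k (h j k)
    rw [h1]
    exact isClosed_of_isClosed (isClosed_iInter fun j => isClosed_iInter fun k => isClosed_closure)
  · exact isOpen_of_isGδ (IsGδ.iInter fun j => IsGδ.iInter fun k => (hV j k).1.isGδ)
  · exact mem_iInter.2 fun j => mem_iInter.2 fun k => (hV j k).2
  · intro y hy
    exact hGU (mem_iInter.2 fun j => mem_iInter.1 (mem_iInter.1 hy j) 0)

/-- The omega-modification of a closed Lindelöf scattered subspace of a regular space is Lindelöf. -/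
theorem isLindelof_mod [RegularSpace K] {A : Set K} (hAc : IsClosed A) (hA : IsLindelof A)
    (hs : Scattered A) : @IsLindelof (OmegaMod K) _ A := by
  refine @isLindelof_of_countable_subcover (OmegaMod K) _ A ?_
  intro ι U hU hAU
  -- the sets that are covered by countably many of the sets `U i`
  let J : Set K → Prop := fun S => ∃ I : Set ι, I.Countable ∧ S ⊆ ⋃ i ∈ I, U i
  have hJmono : ∀ S T : Set K, S ⊆ T → J T → J S := fun S T hST ⟨I, hI, hT⟩ => ⟨I, hI, hST.trans hT⟩
  have hJun : ∀ {κ : Type u} (I : Set κ) (S : κ → Set K), I.Countable → (∀ i ∈ I, J (S i)) →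
      J (⋃ i ∈ I, S i) := by
    intro κ I S hI hS
    have : Countable I := hI.to_subtype
    have h1 : ∀ i : I, ∃ T : Set ι, T.Countable ∧ S i ⊆ ⋃ j ∈ T, U j := fun i => hS i i.2
    choose T hT hST using h1
    refine ⟨⋃ i, T i, countable_iUnion hT, ?_⟩
    intro x hx
    obtain ⟨i, hi, hxi⟩ := mem_iUnion₂.1 hx
    obtain ⟨j, hj, hxj⟩ := mem_iUnion₂.1 (hST ⟨i, hi⟩ hxi)
    exact mem_iUnion₂.2 ⟨j, mem_iUnion.2 ⟨⟨i, hi⟩, hj⟩, hxj⟩
  -- the good points
  let H : Set K := {x | ∃ V : Set K, IsOpen V ∧ x ∈ V ∧ J (closure V ∩ A)}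
  have hclosed : ∀ C : Set K, IsClosed C → C ⊆ A → C ⊆ H → J C := by
    intro C hC hCA hCH
    have hCL : IsLindelof C := by
      have := hA.inter_right hC
      rwa [inter_eq_right.2 hCA] at this
    have h1 : ∀ x : C, ∃ V : Set K, IsOpen V ∧ (x : K) ∈ V ∧ J (closure V ∩ A) := fun x => hCH x.2
    choose V hV hxV hJV using h1
    obtain ⟨I, hI, hCI⟩ := hCL.elim_countable_subcover V hV
      (fun x hx => mem_iUnion.2 ⟨⟨x, hx⟩, hxV ⟨x, hx⟩⟩)
    refine hJmono _ _ ?_ (hJun I (fun x => closure (V x) ∩ A) hI fun i _ => hJV i)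
    intro x hx
    obtain ⟨i, hi, hxi⟩ := mem_iUnion₂.1 (hCI hx)
    exact mem_iUnion₂.2 ⟨i, hi, subset_closure hxi, hCA hx⟩
  have hall : A ⊆ H := by
    by_contra hne
    obtain ⟨y, hyA, hyH⟩ := not_subset.1 hne
    obtain ⟨x, hx, W', hW', hWx'⟩ := hs {x : A | (x : K) ∉ H} ⟨⟨y, hyA⟩, hyH⟩
    obtain ⟨W, hW, rfl⟩ := isOpen_induced_iff.1 hW'
    have hxW : (x : K) ∈ W := by
      have : x ∈ (Subtype.val ⁻¹' W) ∩ {x : A | (x : K) ∉ H} := by rw [hWx']; rfl
      exact this.1
    have hWH : ∀ z ∈ W, z ∈ A → z ≠ x → z ∈ H := by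
      intro z hz hzA hzx
      by_contra hzH
      have : (⟨z, hzA⟩ : A) ∈ (Subtype.val ⁻¹' W) ∩ {x : A | (x : K) ∉ H} := ⟨hz, hzH⟩
      rw [hWx'] at this
      exact hzx (congrArg Subtype.val (mem_singleton_iff.1 this))
    obtain ⟨V, hV, hxV, hVW⟩ := exists_shrink hW hxW
    obtain ⟨i, hxi⟩ := mem_iUnion.1 (hAU x.2)
    obtain ⟨G, hG, hxG, hGU⟩ := exists_isGδ (hU i) hxi
    obtain ⟨g, hg, rfl⟩ := isGδ_iff_eq_iInter_nat.1 hG
    have h1 : ∀ j, J ((closure V ∩ A) \ g j) := by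
      intro j
      refine hclosed _ ((isClosed_closure.inter hAc).sdiff (hg j)) (fun z hz => hz.1.2) ?_
      intro z hz
      refine hWH z (hVW hz.1.1) hz.1.2 ?_
      rintro rfl
      exact hz.2 (mem_iInter.1 hxG j)
    refine hx ⟨V, hV, hxV, ?_⟩
    have h2 : J (⋃ j ∈ (univ : Set (ULift.{u} ℕ)), (closure V ∩ A) \ g j.down) :=
      hJun univ (fun j : ULift.{u} ℕ => (closure V ∩ A) \ g j.down) countable_univ fun j _ => h1 _
    obtain ⟨I, hI, hIc⟩ := h2
    refine ⟨insert i I, hI.insert i, ?_⟩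
    intro z hz
    by_cases hzG : z ∈ ⋂ j, g j
    · exact mem_iUnion₂.2 ⟨i, mem_insert _ _, hGU hzG⟩
    · rw [mem_iInter] at hzG
      push Not at hzG
      obtain ⟨j, hj⟩ := hzG
      obtain ⟨k, hk, hzk⟩ := mem_iUnion₂.1 (hIc (mem_iUnion₂.2 ⟨⟨j⟩, mem_univ _, hz, hj⟩))
      exact mem_iUnion₂.2 ⟨k, mem_insert_of_mem _ hk, hzk⟩
  obtain ⟨I, hI, hAI⟩ := hclosed A hAc Subset.rfl hall
  exact ⟨I, hI, hAI⟩

/-- Countable retractions for countable unions of closed Lindelöf scattered subspaces. -/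
theorem retractions [T3Space K] (A : ℕ → Set K) (hAc : ∀ n, IsClosed (A n))
    (hAL : ∀ n, IsLindelof (A n)) (hs : ∀ n, Scattered (A n)) (hA : ⋃ n, A n = univ) :
    HasCountableRetractions (OmegaMod K) := by
  classical
  intro S hS F hF
  rcases isEmpty_or_nonempty K with hK | hK
  · exact ⟨id, continuous_id, fun x => rfl, (Set.countable_coe_iff.1 (by
      have : IsEmpty (range (id : OmegaMod K → OmegaMod K)) := ⟨fun y => hK.false y.1⟩
      infer_instance)), fun x _ => ⟨x, rfl⟩, fun n x hx => hx⟩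
  -- the ranks
  have hr : ∀ n, ∃ ρ : A n → Ordinal.{u}, Function.Injective ρ ∧ ∀ x, IsOpen {y | ρ y ≤ ρ x} :=
    fun n => exists_rank (hs n)
  choose ρ₀ hinj₀ hopen₀ using hr
  let ρ : ℕ → K → Ordinal.{u} := fun n x => if h : x ∈ A n then ρ₀ n ⟨x, h⟩ else 0
  have hρ : ∀ n x (h : x ∈ A n), ρ n x = ρ₀ n ⟨x, h⟩ := fun n x h => dif_pos h
  have hinj : ∀ n, ∀ x ∈ A n, ∀ y ∈ A n, ρ n x = ρ n y → x = y := by
    intro n x hx y hy h
    rw [hρ n x hx, hρ n y hy] at h
    exact congrArg Subtype.val (hinj₀ n h)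
  -- the clopen sets `U n x`
  have hU : ∀ n (x : K), ∃ C : Set (OmegaMod K), IsClopen C ∧
      (x ∈ A n → x ∈ C ∧ ∀ y ∈ C, y ∈ A n → ρ n y ≤ ρ n x) := by
    intro n x
    by_cases hx : x ∈ A n
    · obtain ⟨O, hO, hOx⟩ := isOpen_induced_iff.1 (hopen₀ n ⟨x, hx⟩)
      have hxO : x ∈ O := by
        have : (⟨x, hx⟩ : A n) ∈ Subtype.val ⁻¹' O := by
          rw [hOx]
          exact le_refl (ρ₀ n ⟨x, hx⟩)
        exact this
      have hO' : @IsOpen (OmegaMod K) _ (O : Set K) := isOpen_of_isOpen hO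
      obtain ⟨C, hC, hxC, hCO⟩ := exists_clopen hO' hxO
      refine ⟨C, hC, fun _ => ⟨hxC, fun y hy hyA => ?_⟩⟩
      have : (⟨y, hyA⟩ : A n) ∈ Subtype.val ⁻¹' O := hCO hy
      rw [hOx] at this
      rw [hρ n x hx, hρ n y hyA]
      exact this
    · exact ⟨univ, isClopen_univ, fun h => absurd h hx⟩
  choose U hUc hU using hU
  -- the countable sets `W n C`
  have hW : ∀ n (C : Set (OmegaMod K)), ∃ W : Set K, W.Countable ∧
      (IsClopen C → W ⊆ C ∩ A n ∧ ∀ z ∈ C, z ∈ A n → ∃ x ∈ W, z ∈ U n x) := by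
    intro n C
    by_cases hC : IsClopen C
    · have h1 : @IsLindelof (OmegaMod K) _ (A n ∩ C) :=
        (isLindelof_mod (hAc n) (hAL n) (hs n)).inter_right hC.isClosed
      obtain ⟨b, hbs, hb, hcov⟩ := h1.elim_countable_subcover_image (b := A n ∩ C) (c := U n)
        (fun x _ => (hUc n x).isOpen) (fun x hx => mem_iUnion₂.2 ⟨x, hx, (hU n x hx.1).1⟩)
      refine ⟨b, hb, fun _ => ⟨fun x hx => ⟨(hbs hx).2, (hbs hx).1⟩, fun z hz hzA => ?_⟩⟩
      obtain ⟨x, hx, hzx⟩ := mem_iUnion₂.1 (hcov ⟨hzA, hz⟩)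
      exact ⟨x, hx, hzx⟩
    · exact ⟨∅, countable_empty, fun h => absurd h hC⟩
  choose W hWc hW using hW
  -- separation of points
  have hSp : ∀ x y : K, ∃ C : Set (OmegaMod K), IsClopen C ∧ (x ≠ y → x ∈ C ∧ y ∉ C) := by
    intro x y
    by_cases hxy : x = y
    · exact ⟨univ, isClopen_univ, fun h => absurd hxy h⟩
    · have h1 : IsOpen ({y}ᶜ : Set K) := isOpen_compl_singleton
      have h1' : @IsOpen (OmegaMod K) _ ({y}ᶜ : Set K) := isOpen_of_isOpen h1
      obtain ⟨C, hC, hxC, hCy⟩ := exists_clopen h1' (x := x) hxy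
      exact ⟨C, hC, fun _ => ⟨hxC, fun h => hCy h rfl⟩⟩
  choose Sp hSpc hSp using hSp
  -- witnesses for not being in `F n`
  have hE : ∀ n (x : Fin n → K), ∃ E : Fin n → Set (OmegaMod K), (∀ i, IsClopen (E i)) ∧
      (x ∉ F n → (∀ i, x i ∈ E i) ∧ ∀ z ∈ F n, ¬ ∀ i, z i ∈ E i) := by
    intro n x
    by_cases hx : x ∈ F n
    · exact ⟨fun _ => univ, fun _ => isClopen_univ, fun h => absurd hx h⟩
    · obtain ⟨V, hV, hVF⟩ := isOpen_pi_iff'.1 (hF n).isOpen_compl _ hx
      have h1 : ∀ i, ∃ C : Set (OmegaMod K), IsClopen C ∧ x i ∈ C ∧ C ⊆ V i := fun i =>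
        exists_clopen (hV i).1 (hV i).2
      choose E hE hxE hEV using h1
      refine ⟨E, hE, fun _ => ⟨hxE, fun z hz hcon => ?_⟩⟩
      exact hVF (mem_univ_pi.2 fun i => hEV i (hcon i)) hz
  choose E hEc hE using hE
  -- closing off
  let pt : Set K → K := fun s => if h : ∃ x, s = {x} then h.choose else hK.some
  have hpt : ∀ x : K, pt {x} = x := by
    intro x
    have h : ∃ y, ({x} : Set K) = {y} := ⟨x, rfl⟩
    have h1 : pt {x} = h.choose := dif_pos h
    rw [h1]
    exact (singleton_injective h.choose_spec).symm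
  obtain ⟨M, hM0, hMc, hM⟩ := exists_closed ({(univ : Set K)} ∪ (fun x : K => ({x} : Set K)) '' S)
    ((countable_singleton _).union (hS.image _))
    (fun n a => range (fun ij : Fin n × Fin n => a ij.1 ∩ a ij.2) ∪ range (fun i => (a i)ᶜ) ∪
      range (fun im : Fin n × ℕ => U im.2 (pt (a im.1))) ∪
      (⋃ im : Fin n × ℕ, (fun x : K => ({x} : Set K)) '' W im.2 (a im.1)) ∪
      range (fun ij : Fin n × Fin n => Sp (pt (a ij.1)) (pt (a ij.2))) ∪
      range (fun i => E n (fun j => pt (a j)) i))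
    (by
      intro n a
      refine ((((((countable_range _).union (countable_range _)).union (countable_range _)).union
        (countable_iUnion fun im => (hWc _ _).image _)).union (countable_range _)).union
        (countable_range _)))
  let P : Set K := {x | ({x} : Set K) ∈ M}
  let B : Set (Set (OmegaMod K)) := {C | C ∈ M ∧ IsClopen C}
  have hSP : S ⊆ P := fun x hx => hM0 (Or.inr ⟨x, hx, rfl⟩)
  have hBu : (univ : Set (OmegaMod K)) ∈ B := ⟨hM0 (Or.inl rfl), isClopen_univ⟩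
  have hBi : ∀ C ∈ B, ∀ C' ∈ B, C ∩ C' ∈ B := by
    intro C hC C' hC'
    refine ⟨?_, hC.2.inter hC'.2⟩
    refine hM 2 ![C, C'] ?_ (Or.inl (Or.inl (Or.inl (Or.inl (Or.inl ⟨(0, 1), rfl⟩)))))
    intro i
    fin_cases i
    · exact hC.1
    · exact hC'.1
  have hBc : ∀ C ∈ B, Cᶜ ∈ B := by
    intro C hC
    refine ⟨?_, hC.2.compl⟩
    refine hM 1 ![C] ?_ (Or.inl (Or.inl (Or.inl (Or.inl (Or.inr ⟨0, rfl⟩)))))
    intro i
    fin_cases i
    exact hC.1
  have hBU : ∀ x ∈ P, ∀ m, U m x ∈ B := by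
    intro x hx m
    refine ⟨?_, hUc m x⟩
    refine hM 1 ![{x}] ?_ (Or.inl (Or.inl (Or.inl (Or.inr ⟨(0, m), ?_⟩))))
    · intro i
      fin_cases i
      exact hx
    · show U m (pt {x}) = U m x
      rw [hpt]
  have hPW : ∀ C ∈ B, ∀ m, ∀ x ∈ W m C, x ∈ P := by
    intro C hC m x hx
    refine hM 1 ![C] ?_ (Or.inl (Or.inl (Or.inr (mem_iUnion.2 ⟨(0, m), x, hx, rfl⟩))))
    intro i
    fin_cases i
    exact hC.1
  have hBS : ∀ x ∈ P, ∀ y ∈ P, Sp x y ∈ B := by
    intro x hx y hy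
    refine ⟨?_, hSpc x y⟩
    refine hM 2 ![{x}, {y}] ?_ (Or.inl (Or.inr ⟨(0, 1), ?_⟩))
    · intro i
      fin_cases i
      · exact hx
      · exact hy
    · show Sp (pt {x}) (pt {y}) = Sp x y
      rw [hpt, hpt]
  have hBE : ∀ n (x : Fin n → K), (∀ i, x i ∈ P) → ∀ i, E n x i ∈ B := by
    intro n x hx i
    refine ⟨?_, hEc n x i⟩
    refine hM n (fun j => {x j}) hx (Or.inr ⟨i, ?_⟩)
    have h1 : (fun j => pt {x j}) = x := funext fun j => hpt (x j)
    show E n (fun j => pt {x j}) i = E n x i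
    rw [h1]
  -- the choice of the point of least rank
  have hidx : ∀ z : K, ∃ n, z ∈ A n := fun z => mem_iUnion.1 (by rw [hA]; exact mem_univ z)
  choose ν hν using hidx
  have hc : ∀ z : K, ∃ x ∈ P, x ∈ A (ν z) ∧ z ∈ U (ν z) x ∧
      ∀ y ∈ P, y ∈ A (ν z) → z ∈ U (ν z) y → ρ (ν z) x ≤ ρ (ν z) y := by
    intro z
    obtain ⟨x₀, hx₀, hzx₀⟩ := ((hW (ν z) univ isClopen_univ).2 z (mem_univ z) (hν z))
    have hx₀P := hPW _ hBu _ x₀ hx₀
    obtain ⟨x, ⟨hxP, hxA, hzx⟩, hmin⟩ := (InvImage.wf (fun x => ρ (ν z) x)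
      (wellFounded_lt (α := Ordinal.{u}))).has_min {x | x ∈ P ∧ x ∈ A (ν z) ∧ z ∈ U (ν z) x}
      ⟨x₀, hx₀P, ((hW (ν z) univ isClopen_univ).1 hx₀).2, hzx₀⟩
    exact ⟨x, hxP, hxA, hzx, fun y hy hyA hzy => not_lt.1 (hmin y ⟨hy, hyA, hzy⟩)⟩
  choose r hrP hrA hrU hrmin using hc
  have hmem : ∀ z, ∀ C ∈ B, r z ∈ C → z ∈ C := by
    intro z C hC hrz
    by_contra hz
    have hC' : U (ν z) (r z) ∩ Cᶜ ∈ B := hBi _ (hBU _ (hrP z) _) _ (hBc _ hC)
    obtain ⟨h1, h2⟩ := hW (ν z) _ hC'.2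
    obtain ⟨x', hx', hzx'⟩ := h2 z ⟨hrU z, hz⟩ (hν z)
    have h3 := h1 hx'
    have h4 : ρ (ν z) x' ≤ ρ (ν z) (r z) := (hU (ν z) (r z) (hrA z)).2 x' h3.1.1 h3.2
    have h5 : ρ (ν z) (r z) ≤ ρ (ν z) x' := hrmin z x' (hPW _ hC' _ x' hx') h3.2 hzx'
    have h6 := hinj _ _ h3.2 _ (hrA z) (le_antisymm h4 h5)
    rw [h6] at h3
    exact h3.1.2 hrz
  have hiff : ∀ z, ∀ C ∈ B, (z ∈ C ↔ r z ∈ C) := by
    intro z C hC
    refine ⟨fun hz => ?_, hmem z C hC⟩
    by_contra hr
    exact hmem z _ (hBc C hC) hr hz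
  have hPeq : ∀ x ∈ P, ∀ y ∈ P, (∀ C ∈ B, (x ∈ C ↔ y ∈ C)) → x = y := by
    intro x hx y hy h
    by_contra hne
    have h1 := hSp x y hne
    exact h1.2 ((h _ (hBS x hx y hy)).1 h1.1)
  have hrP' : ∀ x ∈ P, r x = x := fun x hx =>
    hPeq _ (hrP x) _ hx fun C hC => (hiff x C hC).symm
  have hconst : ∀ z z', (∀ C ∈ B, (z ∈ C ↔ z' ∈ C)) → r z = r z' := fun z z' h =>
    hPeq _ (hrP z) _ (hrP z') fun C hC => (hiff z C hC).symm.trans ((h C hC).trans (hiff z' C hC))
  have hBcount : B.Countable := hMc.mono fun C hC => hC.1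
  have hcont : @Continuous (OmegaMod K) (OmegaMod K) _ _ r := by
    refine IsLocallyConstant.continuous ((IsLocallyConstant.iff_exists_open _).2 fun z => ?_)
    refine ⟨⋂ C ∈ B, {w : OmegaMod K | w ∈ C ↔ z ∈ C}, ?_, ?_, ?_⟩
    · refine isOpen_biInter hBcount fun C hC => ?_
      by_cases hz : z ∈ C
      · have : {w : OmegaMod K | w ∈ C ↔ z ∈ C} = C := by ext w; simp [hz]
        rw [this]; exact hC.2.isOpen
      · have : {w : OmegaMod K | w ∈ C ↔ z ∈ C} = Cᶜ := by ext w; simp [hz]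
        rw [this]; exact hC.2.compl.isOpen
    · exact mem_iInter₂.2 fun C _ => Iff.rfl
    · intro w hw
      exact hconst w z fun C hC => mem_iInter₂.1 hw C hC
  refine ⟨r, hcont, fun x => hrP' _ (hrP x), ?_, fun x hx => ⟨x, hrP' x (hSP hx)⟩, ?_⟩
  · have h1 : (range r) ⊆ P := by
      rintro _ ⟨z, rfl⟩
      exact hrP z
    refine Countable.mono h1 ?_
    exact hMc.preimage_of_injOn (singleton_injective.injOn)
  · intro n x hx
    by_contra hcon
    have h1 := hE n (fun i => r (x i)) hcon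
    refine h1.2 x hx fun i => ?_
    exact (hiff (x i) _ (hBE n _ (fun i => hrP (x i)) i)).2 (h1.1 i)

end Mod

/-! ### Uncountable closed discrete sets -/

/-- A space with an uncountable closed discrete subset is not a Sokolov space. -/
theorem not_sokolov {X : Type u} [TopologicalSpace X] {ι : Type*} [Uncountable ι] (p : ι → X)
    (hp : Function.Injective p)
    (hN : ∀ z, ∃ U : Set X, IsOpen U ∧ z ∈ U ∧ ∀ i, p i ∈ U → p i = z) : ¬ IsSokolov X := by
  intro hX
  have : Infinite ι := inferInstance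
  let F : (n : ℕ) → Set (Fin n → X) := fun n => {v | (∀ i, v i ∈ range p) ∧ Function.Injective v}
  have hF : ∀ n, IsClosed (F n) := by
    intro n
    rw [← isOpen_compl_iff, isOpen_iff_mem_nhds]
    intro v hv
    choose U hU hzU hpU using fun i => hN (v i)
    have h1 : Set.pi univ U ∈ 𝓝 v := (isOpen_set_pi finite_univ fun i _ => hU i).mem_nhds
      fun i _ => hzU i
    filter_upwards [h1] with w hw hwF
    apply hv
    have : w = v := by
      funext i
      obtain ⟨j, hj⟩ := hwF.1 i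
      have h2 := hpU i j (by rw [hj]; exact hw i (mem_univ i))
      rw [← hj]; exact h2
    rw [← this]; exact hwF
  obtain ⟨f, -, ⟨𝒩, h𝒩, hnet⟩, hfF⟩ := hX F hF
  have hpair : ∀ i j, i ≠ j → f (p i) ∈ range p ∧ f (p i) ≠ f (p j) := by
    intro i j hij
    have h1 : ![p i, p j] ∈ F 2 := by
      refine ⟨fun k => ?_, fun k l hkl => ?_⟩
      · fin_cases k
        · exact ⟨i, rfl⟩
        · exact ⟨j, rfl⟩
      · fin_cases k <;> fin_cases l
        · rfl
        · exact absurd (hp hkl) hij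
        · exact absurd (hp hkl).symm hij
        · rfl
    have h2 := hfF 2 _ h1
    exact ⟨h2.1 0, fun h => absurd (h2.2 (a₁ := 0) (a₂ := 1) h) (by decide)⟩
  have hmem : ∀ i, ∃ N ∈ 𝒩, (⟨f (p i), mem_range_self _⟩ : range f) ∈ N ∧
      ∀ j, (⟨f (p j), mem_range_self _⟩ : range f) ∈ N → i = j := by
    intro i
    obtain ⟨U, hU, hzU, hpU⟩ := hN (f (p i))
    obtain ⟨N, hN1, hN2, hN3⟩ := hnet (Subtype.val ⁻¹' U) (hU.preimage continuous_subtype_val)
      ⟨f (p i), mem_range_self _⟩ hzU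
    refine ⟨N, hN1, hN2, fun j hj => ?_⟩
    by_contra hij
    have h1 : f (p j) ∈ U := hN3 hj
    obtain ⟨⟨k, hk⟩, h3⟩ := hpair j i (Ne.symm hij)
    rw [← hk] at h1
    exact h3 (by rw [← hk]; exact hpU k h1)
  choose N hN1 hN2 hN3 using hmem
  have hinj : Function.Injective (fun i => (⟨N i, hN1 i⟩ : 𝒩)) := by
    intro i j hij
    have h1 : N i = N j := congrArg Subtype.val hij
    exact hN3 i j (by rw [h1]; exact hN2 j)
  have : Countable 𝒩 := h𝒩.to_subtype
  exact not_countable_iff.2 ‹Uncountable ι› hinj.countable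

theorem countableExtent_of_sokolov {X : Type u} [TopologicalSpace X] (hX : IsSokolov X) :
    CountableExtent X := by
  intro D hD hdisc
  by_contra hc
  have h1 : Uncountable D := by
    rw [← not_countable_iff]
    exact fun h => hc (Set.countable_coe_iff.1 h)
  refine not_sokolov (fun d : D => (d : X)) Subtype.val_injective (fun z => ?_) hX
  by_cases hz : z ∈ D
  · have := hdisc.to_subtype
    obtain ⟨U, hU, hUD⟩ := isOpen_induced_iff.1 (isOpen_discrete ({⟨z, hz⟩} : Set D))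
    refine ⟨U, hU, ?_, fun d hd => ?_⟩
    · have : (⟨z, hz⟩ : D) ∈ Subtype.val ⁻¹' U := by rw [hUD]; rfl
      exact this
    · have : d ∈ Subtype.val ⁻¹' U := hd
      rw [hUD] at this
      rw [mem_singleton_iff.1 this]
  · exact ⟨Dᶜ, hD.isOpen_compl, hz, fun d hd => absurd d.2 hd⟩

theorem countableExtent_of_lindelof {X : Type u} [TopologicalSpace X] (hX : LindelofSpace X) :
    CountableExtent X := by
  intro D hD hdisc
  have h1 : IsLindelof D := hD.isLindelof
  have h2 : LindelofSpace D := isLindelof_iff_lindelofSpace.1 h1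
  have h3 := hdisc.to_subtype
  exact Set.countable_coe_iff.1 (countable_of_Lindelof_of_discrete (X := D))

section Tree

variable {K : Type u} [TopologicalSpace K] {A : Set K}

/-- Nonempty perfect subsets of `A`. -/
def NP (A : Set K) : Type u := {C : Set K // Perfect C ∧ C.Nonempty ∧ C ⊆ A}

theorem exists_split [T3Space K] {U : Set (Set A)} (hU : ∀ V ∈ U, IsOpen V) (hU' : ⋃₀ U = univ)
    (C : NP A) : ∃ s : Bool → NP A, (∀ b, (s b).1 ⊆ C.1 ∧ ∃ V ∈ U, Subtype.val ⁻¹' (s b).1 ⊆ V) ∧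
    Disjoint (s true).1 (s false).1 := by
  obtain ⟨x, hx⟩ := C.2.2.1
  have hxA := C.2.2.2 hx
  obtain ⟨V, hV, hxV⟩ := mem_sUnion.1 (show (⟨x, hxA⟩ : A) ∈ ⋃₀ U by rw [hU']; exact mem_univ _)
  obtain ⟨O, hO, rfl⟩ := isOpen_induced_iff.1 (hU V hV)
  obtain ⟨W, hW, hxW, hWO⟩ := exists_shrink hO (show x ∈ O from hxV)
  have h1 := C.2.1.closure_nhds_inter x hx hxW hW
  have h2 : closure (W ∩ C.1) ⊆ C.1 := closure_minimal inter_subset_right C.2.1.closed
  have h3 : closure (W ∩ C.1) ⊆ O := (closure_mono inter_subset_left).trans hWO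
  obtain ⟨C₀, C₁, ⟨ha, hb, hc⟩, ⟨hd, he, hf⟩, hg⟩ := h1.1.splitting h1.2
  refine ⟨fun b => cond b ⟨C₀, ha, hb, hc.trans (h2.trans C.2.2.2)⟩
    ⟨C₁, hd, he, hf.trans (h2.trans C.2.2.2)⟩, fun b => ?_, hg⟩
  cases b
  · exact ⟨hf.trans h2, _, hV, fun y hy => h3 (hf hy)⟩
  · exact ⟨hc.trans h2, _, hV, fun y hy => h3 (hc hy)⟩

variable (sp : ℕ → NP A → Bool → NP A)

/-- The branches of the dyadic tree. -/
def T (R : NP A) (x : ℕ → Bool) : ℕ → NP A
  | 0 => R
  | n + 1 => sp n (T R x n) (x n)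

theorem T_congr (R : NP A) {x y : ℕ → Bool} {n : ℕ} (h : ∀ k < n, x k = y k) :
    T sp R x n = T sp R y n := by
  induction n with
  | zero => rfl
  | succ n ih =>
    simp only [T]
    rw [ih fun k hk => h k (by omega), h n (by omega)]

open Classical in
/-- The branch that follows the point `z` as long as possible, with its sets. -/
noncomputable def greedyAux (R : NP A) (z : K) : ℕ → NP A
  | 0 => R
  | n + 1 => sp n (greedyAux R z n) (decide (z ∈ (sp n (greedyAux R z n) true).1))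

open Classical in
/-- The branch that follows the point `z` as long as possible. -/
noncomputable def greedy (R : NP A) (z : K) (n : ℕ) : Bool :=
  decide (z ∈ (sp n (greedyAux sp R z n) true).1)

theorem T_greedy (R : NP A) (z : K) (n : ℕ) :
    T sp R (greedy sp R z) n = greedyAux sp R z n := by
  induction n with
  | zero => rfl
  | succ n ih =>
    simp only [T, greedyAux]
    rw [ih]
    rfl

variable (hd : ∀ n C, Disjoint (sp n C true).1 (sp n C false).1)

include hd in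
theorem sp_disj {n : ℕ} (C : NP A) {z : K} {b b' : Bool} (h : z ∈ (sp n C b).1)
    (h' : z ∈ (sp n C b').1) : b = b' := by
  have h0 := hd n C
  rw [Set.disjoint_left] at h0
  cases b <;> cases b'
  · rfl
  · exact absurd h (h0 h')
  · exact absurd h' (h0 h)
  · rfl

include hd in
open Classical in
theorem greedy_ne (R : NP A) (z : K) (n : ℕ) (b : Bool) (hb : b ≠ greedy sp R z n) :
    z ∉ (sp n (T sp R (greedy sp R z) n) b).1 := by
  rw [T_greedy]
  intro h
  have hg : greedy sp R z n = decide (z ∈ (sp n (greedyAux sp R z n) true).1) := rfl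
  cases b
  · have h1 : greedy sp R z n = true := by
      cases hgz : greedy sp R z n
      · exact absurd hgz.symm hb
      · rfl
    rw [hg, decide_eq_true_iff] at h1
    have := sp_disj sp hd _ h h1
    exact absurd this (by decide)
  · apply hb
    rw [hg, eq_comm, decide_eq_true_iff]
    exact h

include hd in
theorem exists_nhd [T1Space K] (R : NP A) (p : (ℕ → Bool) → K)
    (hp : ∀ x n, p x ∈ (T sp R x n).1) (z : K) :
    ∃ U : Set (OmegaMod K), IsOpen U ∧ z ∈ U ∧ ∀ x, p x ∈ U → p x = z := by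
  classical
  set g := greedy sp R z with hg
  let E : ℕ → Set K := fun n => ⋂ b ∈ {b : Bool | b ≠ g n}, (sp n (T sp R g n) b).1ᶜ
  have hE : ∀ n, IsOpen (E n) := fun n =>
    (toFinite {b : Bool | b ≠ g n}).isOpen_biInter fun b _ =>
      (sp n (T sp R g n) b).2.1.closed.isOpen_compl
  have hzE : ∀ n, z ∈ E n := fun n => mem_iInter₂.2 fun b hb => greedy_ne sp hd R z n b hb
  have hpE : ∀ x, (∀ n, p x ∈ E n) → x = g := by
    intro x hx
    by_contra hne
    have hex : ∃ n, x n ≠ g n := by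
      by_contra hcon
      push Not at hcon
      exact hne (funext hcon)
    have hlt : ∀ k < Nat.find hex, x k = g k := fun k hk => by
      by_contra h
      exact Nat.find_min hex hk h
    have h1 := hp x (Nat.find hex + 1)
    have h2 : T sp R x (Nat.find hex + 1) =
        sp (Nat.find hex) (T sp R g (Nat.find hex)) (x (Nat.find hex)) := by
      rw [← T_congr sp R hlt]
      rfl
    rw [h2] at h1
    exact mem_iInter₂.1 (hx (Nat.find hex)) _ (Nat.find_spec hex) h1
  let W : Set K := if p g = z then univ else {p g}ᶜ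
  have hW : IsOpen W := by
    by_cases h : p g = z
    · simp only [W, h, if_true]; exact isOpen_univ
    · simp only [W, h, if_false]; exact isOpen_compl_singleton
  refine ⟨((⋂ n, E n) ∩ W : Set K), ?_, ⟨mem_iInter.2 hzE, ?_⟩, ?_⟩
  · refine isOpen_generateFrom_of_mem ?_
    exact (IsGδ.iInter fun n => (hE n).isGδ).inter hW.isGδ
  · by_cases h : p g = z
    · simp only [W, h, if_true]; exact mem_univ _
    · simp only [W, h, if_false]
      exact fun h' => h (mem_singleton_iff.1 h').symm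
  · rintro x ⟨hx1, hx2⟩
    have hxg := hpE x fun n => mem_iInter.1 hx1 n
    subst hxg
    by_contra h
    simp only [W, h, if_false] at hx2
    exact hx2 rfl

/-- A closed Čech-complete subspace which is not scattered contains a compact set `C` and an
uncountable subset `D` of `C` which is closed and discrete in the omega-modification. -/
theorem exists_compact [T3Space K] (hAc : IsClosed A) (hA : CechComplete A)
    (h : ¬ Scattered A) : ∃ C : Set K, IsCompact C ∧ ∃ D : Set (OmegaMod K), IsClosed D ∧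
      IsDiscrete D ∧ ¬ D.Countable ∧ D ⊆ C := by
  obtain ⟨U, hU, hUc⟩ := hA
  unfold Scattered at h
  push Not at h
  obtain ⟨S₀, hSne₀, hS₀⟩ := h
  let S : Set K := Subtype.val '' S₀
  have hSne : S.Nonempty := hSne₀.image _
  have hSA : S ⊆ A := by
    rintro _ ⟨y, _, rfl⟩
    exact y.2
  have hpre : Preperfect S := by
    rw [preperfect_iff_nhds]
    rintro _ ⟨x, hx, rfl⟩ O hO
    obtain ⟨V, hVO, hV, hxV⟩ := mem_nhds_iff.1 hO
    by_contra hcon
    push Not at hcon
    apply hS₀ x hx (Subtype.val ⁻¹' V) (hV.preimage continuous_subtype_val)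
    ext y
    constructor
    · rintro ⟨hy1, hy2⟩
      exact Subtype.ext (hcon y ⟨hVO hy1, ⟨y, hy2, rfl⟩⟩)
    · rintro rfl
      exact ⟨hxV, hx⟩
  let R : NP A := ⟨closure S, hpre.perfect_closure, hSne.closure, closure_minimal hSA hAc⟩
  have hspl : ∀ n, ∀ C : NP A, ∃ s : Bool → NP A,
      (∀ b, (s b).1 ⊆ C.1 ∧ ∃ V ∈ U n, Subtype.val ⁻¹' (s b).1 ⊆ V) ∧
      Disjoint (s true).1 (s false).1 := fun n C => exists_split (hU n).1 (hU n).2 C
  choose sp hsp hd using hspl
  have hanti : ∀ x n, (T sp R x (n + 1)).1 ⊆ (T sp R x n).1 := fun x n => (hsp n _ (x n)).1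
  have hanti' : ∀ x, Antitone fun n => (T sp R x n).1 := fun x => antitone_nat_of_succ_le (hanti x)
  have hbr : ∀ x, ∃ z : K, ∀ n, z ∈ (T sp R x n).1 := by
    intro x
    let F : Filter A := ⨅ n, 𝓟 (Subtype.val ⁻¹' (T sp R x n).1)
    have hF : ∀ n, Subtype.val ⁻¹' (T sp R x n).1 ∈ F := fun n =>
      mem_iInf_of_mem n (mem_principal_self _)
    have hne : F.NeBot := by
      refine iInf_neBot_of_directed' ?_ ?_
      · intro i j
        refine ⟨max i j, ?_, ?_⟩
        · exact principal_mono.2 (preimage_mono (hanti' x (le_max_left i j)))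
        · exact principal_mono.2 (preimage_mono (hanti' x (le_max_right i j)))
      · intro n
        obtain ⟨y, hy⟩ := (T sp R x n).2.2.1
        exact principal_neBot_iff.2 ⟨⟨y, (T sp R x n).2.2.2 hy⟩, hy⟩
    obtain ⟨z, hz⟩ := hUc F hne fun n => by
      obtain ⟨V, hV, hTV⟩ := (hsp n (T sp R x n) (x n)).2
      exact ⟨V, hV, mem_of_superset (hF (n + 1)) hTV⟩
    refine ⟨z, fun n => ?_⟩
    have h1 : z ∈ closure (Subtype.val ⁻¹' (T sp R x n).1) :=
      mem_closure_iff_clusterPt.2 (hz.mono (le_principal_iff.2 (hF n)))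
    have h2 : IsClosed (Subtype.val ⁻¹' (T sp R x n).1 : Set A) :=
      (T sp R x n).2.1.closed.preimage continuous_subtype_val
    rw [h2.closure_eq] at h1
    exact h1
  choose p hp using hbr
  have hinj : Function.Injective p := by
    intro x y hxy
    by_contra hne
    have hex : ∃ n, x n ≠ y n := by
      by_contra hcon
      push Not at hcon
      exact hne (funext hcon)
    classical
    have hlt : ∀ k < Nat.find hex, x k = y k := fun k hk => by
      by_contra h
      exact Nat.find_min hex hk h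
    have h1 : p x ∈ (sp _ (T sp R x (Nat.find hex)) (x (Nat.find hex))).1 :=
      hp x (Nat.find hex + 1)
    have h2 : p y ∈ (sp _ (T sp R y (Nat.find hex)) (y (Nat.find hex))).1 :=
      hp y (Nat.find hex + 1)
    rw [← T_congr sp R hlt, ← hxy] at h2
    exact Nat.find_spec hex (sp_disj sp hd _ h1 h2)
  have hunc : Uncountable (ℕ → Bool) := by
    rw [← Cardinal.aleph0_lt_mk_iff]
    simpa using Cardinal.cantor Cardinal.aleph0
  let D : Set (OmegaMod K) := range p
  have hnb := exists_nhd sp hd R p hp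
  have hDc : IsClosed D := by
    rw [← isOpen_compl_iff, isOpen_iff_mem_nhds]
    intro z hz
    obtain ⟨U, hU, hzU, hpU⟩ := hnb z
    refine mem_of_superset (hU.mem_nhds hzU) ?_
    rintro w hw ⟨x, rfl⟩
    exact hz ⟨x, hpU x hw⟩
  have hDd : IsDiscrete D := by
    refine ⟨discreteTopology_subtype_iff'.2 fun z hz => ?_⟩
    obtain ⟨U, hU, hzU, hpU⟩ := hnb z
    refine ⟨U, hU, ?_⟩
    ext w
    constructor
    · rintro ⟨hw1, ⟨x, rfl⟩⟩
      exact hpU x hw1
    · rintro rfl
      exact ⟨hzU, hz⟩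
  have hfin : ∀ n, (range fun x => (T sp R x n).1).Finite := by
    intro n
    refine (Set.finite_range fun y : Fin n → Bool =>
      (T sp R (fun k => if h : k < n then y ⟨k, h⟩ else false) n).1).subset ?_
    rintro _ ⟨x, rfl⟩
    refine ⟨fun i => x i, ?_⟩
    have h1 : T sp R (fun k => if h : k < n then x (⟨k, h⟩ : Fin n) else false) n = T sp R x n :=
      T_congr sp R fun k hk => by simp [hk]
    exact congrArg Subtype.val h1
  let C : Set K := ⋂ n, ⋃₀ (range fun x => (T sp R x n).1)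
  have hCc : IsClosed C := isClosed_iInter fun n => by
    rw [sUnion_eq_biUnion]
    refine (hfin n).isClosed_biUnion ?_
    rintro _ ⟨x, rfl⟩
    exact (T sp R x n).2.1.closed
  have hCcpt : IsCompact C := by
    rw [isCompact_iff_ultrafilter_le_nhds]
    intro f hf
    have hCf : C ∈ f := hf (mem_principal_self C)
    have hTf : ∀ n, ∃ x, (T sp R x n).1 ∈ f := by
      intro n
      have h1 : ⋃₀ (range fun x => (T sp R x n).1) ∈ f := mem_of_superset hCf (iInter_subset _ n)
      obtain ⟨t, ⟨x, rfl⟩, ht⟩ := (Ultrafilter.finite_sUnion_mem_iff (hfin n)).1 h1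
      exact ⟨x, ht⟩
    have hAf : range (Subtype.val : A → K) ∈ f := by
      obtain ⟨x, hx⟩ := hTf 0
      rw [Subtype.range_coe]
      exact mem_of_superset hx (T sp R x 0).2.2.2
    let f' : Ultrafilter A := f.comap Subtype.val_injective hAf
    obtain ⟨z, hz⟩ := hUc f' f'.neBot fun n => by
      obtain ⟨x, hx⟩ := hTf (n + 1)
      obtain ⟨V, hV, hTV⟩ := (hsp n (T sp R x n) (x n)).2
      refine ⟨V, hV, mem_of_superset ?_ hTV⟩
      exact preimage_mem_comap hx
    have h2 : (f' : Filter A) ≤ 𝓝 z := Ultrafilter.clusterPt_iff.1 hz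
    have h3 : (f : Filter K) ≤ 𝓝 (z : K) := by
      have h4 : Filter.map Subtype.val (f' : Filter A) = f := by
        rw [Ultrafilter.coe_comap]
        exact Filter.map_comap_of_mem hAf
      rw [← h4]
      exact (Filter.map_mono h2).trans continuous_subtype_val.continuousAt
    refine ⟨z, ?_, h3⟩
    rw [← hCc.closure_eq]
    exact mem_closure_iff_ultrafilter.2 ⟨f, hCf, h3⟩
  refine ⟨C, hCcpt, D, hDc, hDd, ?_, ?_⟩
  · intro h3
    have h4 : Countable D := h3.to_subtype
    have h5 : Function.Injective (fun x => (⟨p x, mem_range_self x⟩ : D)) := fun x y hxy =>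
      hinj (congrArg Subtype.val hxy)
    exact not_countable_iff.2 hunc h5.countable
  · rintro _ ⟨x, rfl⟩
    exact mem_iInter.2 fun n => ⟨_, ⟨x, rfl⟩, hp x n⟩

end Tree

/-! ### The results -/

theorem isSokolov_of_retractions {X : Type u} [TopologicalSpace X]
    (h : HasCountableRetractions X) : IsSokolov X := by
  intro F hF
  obtain ⟨f, hf, -, hfc, -, hfF⟩ := h ∅ countable_empty F hF
  refine ⟨f, hf, ?_, hfF⟩
  have : Countable (range f) := hfc.to_subtype
  refine ⟨range fun y : range f => {y}, countable_range _, fun U _ y hy => ?_⟩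
  exact ⟨{y}, ⟨y, rfl⟩, rfl, singleton_subset_iff.2 hy⟩

theorem lindelof_mod {K : Type u} [TopologicalSpace K] [T3Space K] (A : ℕ → Set K)
    (hAc : ∀ n, IsClosed (A n)) (hAL : ∀ n, IsLindelof (A n)) (hs : ∀ n, Scattered (A n))
    (hA : ⋃ n, A n = univ) : LindelofSpace (OmegaMod K) := by
  have h1 : ∀ n, @IsLindelof (OmegaMod K) _ (A n) := fun n => isLindelof_mod (hAc n) (hAL n) (hs n)
  have h2 := @isLindelof_iUnion (OmegaMod K) _ ℕ A _ h1
  refine ⟨?_⟩
  have h3 : (⋃ n, A n : Set (OmegaMod K)) = univ := hA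
  rw [h3] at h2
  exact h2

theorem cechComplete_of_compact {X : Type u} [TopologicalSpace X] [CompactSpace X] :
    CechComplete X :=
  ⟨fun _ => {univ}, fun _ => ⟨fun V hV => by rw [mem_singleton_iff.1 hV]; exact isOpen_univ,
    sUnion_singleton _⟩, fun F hF _ => exists_clusterPt_of_compactSpace F⟩

/-- A compact set with an uncountable subset which is closed and discrete in the
omega-modification is not scattered. -/
theorem not_scattered_of_discrete {K : Type u} [TopologicalSpace K] [T3Space K] {C : Set K}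
    (hC : IsCompact C) {D : Set (OmegaMod K)} (hD : IsClosed D) (hd : IsDiscrete D)
    (hc : ¬ D.Countable) (hDC : D ⊆ C) : ¬ Scattered C := by
  intro hs
  have h1 : @IsLindelof (OmegaMod K) _ C := isLindelof_mod hC.isClosed hC.isLindelof hs
  have h2 : IsLindelof D := by
    have h6 : C ∩ D = D := inter_eq_right.2 hDC
    have h7 := @IsLindelof.inter_right (OmegaMod K) _ C D h1 hD
    exact Eq.mp (congrArg (fun s => @IsLindelof (OmegaMod K) _ s) h6) h7
  have h4 : LindelofSpace D := isLindelof_iff_lindelofSpace.1 h2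
  have h5 := hd.to_subtype
  exact hc (Set.countable_coe_iff.1 (countable_of_Lindelof_of_discrete (X := D)))

end Pool.Agent.KS6_94.SK
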